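import Pool.Agent.H43.FlowEnt.Ent

/-!
# MP_54b048_an: a fixed-point free flow without small-entropy flow factors

Q1 has a negative answer.  On a compact metrizable space `X` there is a fixed-point free
continuous flow, with a continuous equivariant map `q` onto the rotation flow of the circle
`ℝ/ℤ`, such that for any two points `w`, `w'` of one fibre of `q` every flow factor map (even every
factor map of the time-one map only) which separates `w` and `w'` has a factor of infinite
topological entropy.  Entropy is Mathlib's `Dynamics.coverEntropy` (Bowen-Dinaburg, open covers by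
dynamical balls) of the time-one map of the factor.
-/

set_option autoImplicit false

namespace Pool.Agent.Results.MP_54b048_an.NoSmallFactor

open Pool.H43.FlowEnt

theorem result :
    ∃ (X : Type) (_ : TopologicalSpace X) (_ : CompactSpace X)
      (_ : TopologicalSpace.MetrizableSpace X) (Φ : Flow ℝ X) (q : X → UnitAddCircle),
      (∀ x : X, ∃ t : ℝ, Φ t x ≠ x) ∧
      Continuous q ∧ (∀ (t : ℝ) (x : X), q (Φ t x) = q x + (t : UnitAddCircle)) ∧
      (∃ w w' : X, w ≠ w' ∧ q w = q w') ∧
      ∀ w w' : X, q w = q w' →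
        (∀ (Y : Type) [MetricSpace Y] [CompactSpace Y] (Ψ : Flow ℝ Y) (π : X → Y),
          Flow.IsSemiconjugacy π Φ Ψ → π w ≠ π w' →
            Dynamics.coverEntropy (Ψ 1) Set.univ = ⊤) ∧
        (∀ (Y : Type) [MetricSpace Y] [CompactSpace Y] (S : Y → Y) (π : X → Y),
          Continuous π → Function.Surjective π → (∀ x, π (Φ 1 x) = S (π x)) → π w ≠ π w' →
            Dynamics.coverEntropy S Set.univ = ⊤) := by
  refine ⟨XS, inferInstance, inferInstance, inferInstance, flow, Prod.snd, flow_no_fixed,
    continuous_snd, fun t x => rfl, ?_, ?_⟩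
  · let a : LipS := ⟨fun _ => 0, fun _ => ⟨le_rfl, zero_le_one⟩, fun _ _ => by simp⟩
    let b : LipS := ⟨fun _ => 1, fun _ => ⟨zero_le_one, le_rfl⟩, fun _ _ => by simp⟩
    refine ⟨(a, 0), (b, 0), fun h => ?_, rfl⟩
    have h1 : a.1 0 = b.1 0 := by rw [(Prod.mk.inj h).1]
    exact zero_ne_one h1
  · rintro ⟨f, θ⟩ ⟨g, θ'⟩ hq
    have hq' : θ = θ' := hq
    subst hq'
    refine ⟨?_, ?_⟩
    · intro Y _ _ Ψ π hπ hne
      exact main (Ψ 1) π hπ.cont (hπ.semiconj 1) f g θ hne
    · intro Y _ _ S π hπ _ hS hne
      exact main S π hπ hS f g θ hne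

end Pool.Agent.Results.MP_54b048_an.NoSmallFactor
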